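import Pool.Agent.Helper29.E3.St2
import Pool.Agent.Helper49.PC.M_VAC

/-! # Project E3, module VACX: Vaughan's identity for `Psi` with two parameters -/

set_option autoImplicit false

namespace Pool.Agent.Helper27.E3

open Finset ArithmeticFunction
open Pool.Agent.Helper29.E3
open Pool.Agent.Helper49.PC
open Pool.Agent.Helper2 (lo hi mob zet sum_conv lo_apply hi_apply abs_mob_le zet_apply
  hi_mob_zet_eq_zero abs_hi_mob_zet_le)

/-- the character on the window -/
private noncomputable def GGX {q : ℕ} (χ : DirichletCharacter ℂ q) (w₀ w₁ n : ℕ) : ℂ :=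
  if w₀ < n ∧ n ≤ w₁ then χ (n : ZMod q) else 0

private theorem innerX {q : ℕ} (χ : DirichletCharacter ℂ q) (X w₀ w₁ a : ℕ) (ha : 1 ≤ a)
    (hw : w₁ ≤ X) (f : ℕ → ℂ) :
    ∑ b ∈ Ioc 0 X, f b * GGX χ w₀ w₁ (a * b) =
      χ (a : ZMod q) * ∑ b ∈ Ioc (w₀ / a) (w₁ / a), f b * χ (b : ZMod q) := by
  have hs : (Ioc 0 X).filter (fun b => w₀ < a * b ∧ a * b ≤ w₁) = Ioc (w₀ / a) (w₁ / a) := by
    ext b
    simp only [mem_filter, mem_Ioc]
    constructor
    · rintro ⟨⟨h1, _⟩, h3, h4⟩
      exact ⟨(Nat.div_lt_iff_lt_mul ha).2 (by rwa [mul_comm]),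
        (Nat.le_div_iff_mul_le ha).2 (by rwa [mul_comm])⟩
    · rintro ⟨h1, h2⟩
      have h3 := (Nat.le_div_iff_mul_le ha).1 h2
      have h4 := (Nat.div_lt_iff_lt_mul ha).1 h1
      exact ⟨⟨lt_of_le_of_lt (Nat.zero_le _) h1, (h2.trans (Nat.div_le_self _ _)).trans hw⟩,
        by rwa [mul_comm], by rwa [mul_comm]⟩
  rw [← hs, sum_filter, Finset.mul_sum]
  refine Finset.sum_congr rfl fun b _ => ?_
  unfold GGX
  split_ifs with h
  · rw [Nat.cast_mul, map_mul]
    ring
  · simp

private theorem bilX {q : ℕ} (χ : DirichletCharacter ℂ q) (α β : ℕ → ℝ) (X w₀ w₁ : ℕ) :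
    Bil χ α β X w₀ w₁ = ∑ a ∈ Ioc 0 X, ∑ b ∈ Ioc 0 X,
      (α a : ℂ) * (β b : ℂ) * GGX χ w₀ w₁ (a * b) := by
  unfold Bil
  refine Finset.sum_congr rfl fun a _ => Finset.sum_congr rfl fun b _ => ?_
  unfold GGX
  split_ifs with h
  · rw [Nat.cast_mul, map_mul]
    push_cast
    ring
  · simp

private theorem vaughanX (V U : ℕ) :
    vonMangoldt = lo vonMangoldt V + lo mob U * log
      - (lo vonMangoldt V * lo mob U) * zet + hi vonMangoldt V * (hi mob U * zet) := by
  have h1 := Pool.Agent.Helper2.lo_add_hi vonMangoldt V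
  have h2 := Pool.Agent.Helper2.lo_add_hi mob U
  have h3 := Pool.Agent.Helper2.ring_identity (lo vonMangoldt V) (hi vonMangoldt V) (lo mob U)
    (hi mob U) zet (by rw [h2, Pool.Agent.Helper2.mob_mul_zet])
  rw [h1, Pool.Agent.Helper2.vonMangoldt_mul_zet] at h3
  exact h3

private theorem lo_lo_zeroX (f g : ArithmeticFunction ℝ) (V U n : ℕ) (hn : U * V < n) :
    (lo f V * lo g U) n = 0 := by
  rw [ArithmeticFunction.mul_apply]
  refine Finset.sum_eq_zero fun x hx => ?_
  obtain ⟨h1, _⟩ := Nat.mem_divisorsAntidiagonal.1 hx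
  rw [lo_apply, lo_apply]
  by_cases h2 : x.1 ≤ V
  · by_cases h3 : x.2 ≤ U
    · exfalso
      have h4 := Nat.mul_le_mul h2 h3
      rw [h1, mul_comm V U] at h4
      omega
    · simp [h3]
  · simp [h2]

private theorem abs_lo_loX (V U n : ℕ) :
    |(lo vonMangoldt V * lo mob U) n| ≤ Real.log n := by
  rw [ArithmeticFunction.mul_apply]
  calc |∑ x ∈ n.divisorsAntidiagonal, lo vonMangoldt V x.1 * lo mob U x.2|
      ≤ ∑ x ∈ n.divisorsAntidiagonal, |lo vonMangoldt V x.1 * lo mob U x.2| :=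
        Finset.abs_sum_le_sum_abs _ _
    _ ≤ ∑ x ∈ n.divisorsAntidiagonal, vonMangoldt x.1 := by
        refine Finset.sum_le_sum fun x _ => ?_
        rw [abs_mul]
        have h1 : |lo vonMangoldt V x.1| ≤ vonMangoldt x.1 := by
          rw [lo_apply]
          split_ifs
          · rw [abs_of_nonneg vonMangoldt_nonneg]
          · simp
        have h2 : |lo mob U x.2| ≤ 1 := by
          rw [lo_apply]
          split_ifs
          · exact abs_mob_le _
          · simp
        calc |lo vonMangoldt V x.1| * |lo mob U x.2| ≤ vonMangoldt x.1 * 1 :=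
              mul_le_mul h1 h2 (abs_nonneg _) vonMangoldt_nonneg
          _ = vonMangoldt x.1 := mul_one _
    _ = Real.log n := by
        rw [Nat.sum_divisorsAntidiagonal (fun i _ => vonMangoldt i), vonMangoldt_sum]

theorem hVACX (h1 : StSMT) : StVACX := by
  intro q _ X U V w₀ w₁ hX hU hV hVw hUVX hww hwX
  have hL1 : 1 ≤ Real.log X := by
    have h1 : (3 : ℝ) ≤ X := by exact_mod_cast hX
    rw [Real.le_log_iff_exp_le (by linarith)]
    have := Real.exp_one_lt_d9
    linarith
  have hUX : U ≤ X := by nlinarith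
  have hlog : ∀ n : ℕ, n ≤ X → Real.log n ≤ Real.log X := by
    intro n hn
    rcases Nat.eq_zero_or_pos n with h0 | h0
    · rw [h0]
      simp only [Nat.cast_zero, Real.log_zero]
      linarith
    · exact Real.log_le_log (by exact_mod_cast h0) (by exact_mod_cast hn)
  have hdiv : ∀ n : ℕ, 1 ≤ n → (1 : ℝ) ≤ (n.divisors.card : ℝ) := by
    intro n hn
    exact_mod_cast Finset.card_pos.2 ⟨1, Nat.one_mem_divisors.2 (by omega)⟩
  set c : ArithmeticFunction ℝ := lo vonMangoldt V * lo mob U with hc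
  set T2 : ℕ → DirichletCharacter ℂ q → ℂ := fun a χ =>
    (mob a : ℂ) * (χ (a : ZMod q) * ∑ b ∈ Ioc (w₀ / a) (w₁ / a), ((Real.log b : ℝ) : ℂ) *
      χ (b : ZMod q)) with hT2
  have hq0 : (0 : ℝ) ≤ q := Nat.cast_nonneg _
  refine ⟨fun a => c a, fun a => if X < a then 0 else hi vonMangoldt V a,
    fun b => (hi mob U * zet) b,
    fun χ => ∑ a ∈ Ioc 0 U, T2 a χ, ?_, ?_, ?_, ?_, ?_, ?_, ?_⟩
  · -- bound for c
    intro n
    dsimp only
    by_cases h2 : n ≤ U * V
    · rcases Nat.eq_zero_or_pos n with h0 | h0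
      · rw [h0, ArithmeticFunction.map_zero, abs_zero]
        positivity
      · have h3 := (abs_lo_loX V U n).trans (hlog n (h2.trans hUVX))
        have h4 := hdiv n h0
        rw [hc]
        nlinarith
    · rw [hc, lo_lo_zeroX _ _ V U n (by omega), abs_zero]
      positivity
  · dsimp only
    rw [hc, ArithmeticFunction.mul_apply, Nat.divisorsAntidiagonal_one, Finset.sum_singleton,
      lo_apply]
    simp
  · intro n hn
    dsimp only
    rw [hc, lo_lo_zeroX _ _ V U n hn]
  · refine ⟨fun n => ?_, fun n hn => ?_⟩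
    · dsimp only
      split_ifs with h
      · rw [abs_zero]
        positivity
      · rw [hi_apply]
        split_ifs with h2
        · rw [abs_zero]
          positivity
        · rw [abs_of_nonneg vonMangoldt_nonneg]
          have h3 : vonMangoldt n ≤ Real.log X := vonMangoldt_le_log.trans (hlog n (by omega))
          have h4 := hdiv n (by omega)
          nlinarith
    · dsimp only
      rw [hi_apply, if_pos (show n ≤ V by omega), ite_self]
  · refine ⟨fun n => ?_, fun n hn => hi_mob_zet_eq_zero U n (by omega)⟩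
    have h3 := abs_hi_mob_zet_le U n
    have h4 : (0 : ℝ) ≤ (n.divisors.card : ℝ) := Nat.cast_nonneg _
    dsimp only
    nlinarith
  · -- mean square of E
    rw [← l2_sq]
    refine pow_le_pow_left₀ (l2_nonneg _ _) ?_ 2
    refine (l2_sum_le _ _ _).trans ?_
    have hterm : ∀ a ∈ Ioc 0 U, l2 ((univ : Finset (DirichletCharacter ℂ q)).filter (· ≠ 1))
        (T2 a) ≤ q * Real.log X := by
      intro a ha
      have g1 := h1 q (fun b => Real.log b) (w₀ / a) (w₁ / a)
        (fun n => Real.log_natCast_nonneg n)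
        (fun m n hm hmn => Real.log_le_log (by exact_mod_cast hm) (by exact_mod_cast hmn))
      have g2 : 0 ≤ q * Real.log ((w₁ / a : ℕ) : ℝ) :=
        mul_nonneg hq0 (Real.log_natCast_nonneg _)
      rw [← l2_le_iff _ _ _ g2] at g1
      have g3 : q * Real.log ((w₁ / a : ℕ) : ℝ) ≤ q * Real.log X :=
        mul_le_mul_of_nonneg_left (hlog _ ((Nat.div_le_self _ _).trans hwX)) hq0
      refine le_trans (l2_mono _ _ _ fun χ _ => ?_) (g1.trans g3)
      rw [hT2]
      dsimp only
      rw [norm_mul, norm_mul, Complex.norm_real, Real.norm_eq_abs]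
      have g4 := abs_mob_le a
      have g5 := DirichletCharacter.norm_le_one χ (a : ZMod q)
      have g6 := norm_nonneg (∑ b ∈ Ioc (w₀ / a) (w₁ / a), ((Real.log b : ℝ) : ℂ) *
        χ (b : ZMod q))
      calc |mob a| * (‖χ (a : ZMod q)‖ * ‖∑ b ∈ Ioc (w₀ / a) (w₁ / a),
            ((Real.log b : ℝ) : ℂ) * χ (b : ZMod q)‖)
          ≤ 1 * (1 * ‖∑ b ∈ Ioc (w₀ / a) (w₁ / a),
            ((Real.log b : ℝ) : ℂ) * χ (b : ZMod q)‖) := by gcongr
        _ = _ := by rw [one_mul, one_mul]
    refine (Finset.sum_le_sum hterm).trans ?_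
    rw [Finset.sum_const, nsmul_eq_mul, Nat.card_Ioc, Nat.sub_zero]
    have h5 : (0 : ℝ) ≤ U * (q * Real.log X) :=
      mul_nonneg (Nat.cast_nonneg _) (mul_nonneg hq0 (by linarith))
    nlinarith
  · intro χ
    have hG0 : ∀ n, X < n → GGX χ w₀ w₁ n = 0 := by
      intro n hn
      unfold GGX
      rw [if_neg (by omega)]
    have e0 : Psi χ w₀ w₁ = ∑ n ∈ Ioc 0 X, ((vonMangoldt n : ℝ) : ℂ) * GGX χ w₀ w₁ n := by
      unfold Psi
      have hs : (Ioc 0 X).filter (fun n => w₀ < n ∧ n ≤ w₁) = Ioc w₀ w₁ := by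
        ext n
        simp only [mem_filter, mem_Ioc]
        omega
      rw [← hs, sum_filter]
      refine Finset.sum_congr rfl fun n _ => ?_
      unfold GGX
      split_ifs <;> simp
    have e1 : Psi χ w₀ w₁ = ∑ n ∈ Ioc 0 X, (((lo mob U * log) n : ℝ) : ℂ) * GGX χ w₀ w₁ n -
        ∑ n ∈ Ioc 0 X, (((c * zet) n : ℝ) : ℂ) * GGX χ w₀ w₁ n +
        ∑ n ∈ Ioc 0 X, (((hi vonMangoldt V * (hi mob U * zet)) n : ℝ) : ℂ) *
          GGX χ w₀ w₁ n := by
      rw [e0, ← Finset.sum_sub_distrib, ← Finset.sum_add_distrib]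
      refine Finset.sum_congr rfl fun n _ => ?_
      by_cases hn : w₀ < n ∧ n ≤ w₁
      · have h := congrArg (fun f : ArithmeticFunction ℝ => f n) (vaughanX V U)
        simp only [sub_eq_add_neg, ArithmeticFunction.add_apply,
          ArithmeticFunction.neg_apply] at h
        rw [lo_apply, if_neg (by omega), zero_add] at h
        rw [h, hc]
        push_cast
        ring
      · have h0 : GGX χ w₀ w₁ n = 0 := by
          unfold GGX
          rw [if_neg hn]
        rw [h0]
        simp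
    -- second term
    have f2 : ∑ n ∈ Ioc 0 X, (((lo mob U * log) n : ℝ) : ℂ) * GGX χ w₀ w₁ n =
        ∑ a ∈ Ioc 0 U, T2 a χ := by
      rw [sum_conv _ _ X _ hG0]
      have hsub : Ioc 0 U ⊆ Ioc 0 X := Finset.Ioc_subset_Ioc_right hUX
      rw [← Finset.sum_subset hsub]
      · refine Finset.sum_congr rfl fun a ha => ?_
        have ha1 := (mem_Ioc.1 ha).1
        rw [hT2]
        dsimp only
        rw [← innerX χ X w₀ w₁ a ha1 hwX (fun b => ((Real.log b : ℝ) : ℂ)), Finset.mul_sum]
        refine Finset.sum_congr rfl fun b _ => ?_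
        rw [lo_apply, if_pos (mem_Ioc.1 ha).2, log_apply]
        ring
      · intro a ha ha2
        have h3 : ¬ a ≤ U := fun h => ha2 (mem_Ioc.2 ⟨(mem_Ioc.1 ha).1, h⟩)
        refine Finset.sum_eq_zero fun b _ => ?_
        rw [lo_apply, if_neg h3]
        simp
    have f3 : ∑ n ∈ Ioc 0 X, (((c * zet) n : ℝ) : ℂ) * GGX χ w₀ w₁ n =
        Bil χ (fun a => c a) one1 X w₀ w₁ := by
      rw [sum_conv _ _ X _ hG0, bilX]
      refine Finset.sum_congr rfl fun a _ => Finset.sum_congr rfl fun b hb => ?_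
      have hb1 := (mem_Ioc.1 hb).1
      rw [zet_apply hb1]
      unfold one1
      rw [if_neg (by omega)]
    have f4 : ∑ n ∈ Ioc 0 X, (((hi vonMangoldt V * (hi mob U * zet)) n : ℝ) : ℂ) *
        GGX χ w₀ w₁ n = Bil χ (fun a => if X < a then 0 else hi vonMangoldt V a)
          (fun b => (hi mob U * zet) b) X w₀ w₁ := by
      rw [sum_conv _ _ X _ hG0, bilX]
      refine Finset.sum_congr rfl fun a ha => Finset.sum_congr rfl fun b _ => ?_
      rw [if_neg (by have := (mem_Ioc.1 ha).2; omega)]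
    rw [e1, f2, f3, f4]
    exact (norm_add_le _ _).trans (add_le_add (norm_sub_le _ _) le_rfl)

end Pool.Agent.Helper27.E3
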